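import Pool.Agent.Lib.MP_f11a48_ag.UN.UniDefs
import Pool.Agent.Lib.MP_f11a48_ag.K3.OddBasic

/-!
# UNI: modules of even dimension with irreducible exterior powers (combinatorial part)
-/

set_option autoImplicit false
set_option linter.unusedSectionVars false

namespace Pool.Agent.Lib.MPf11a48.UN

open Finset Pool.Agent.Lib.MPf11a48.K3 Pool.Agent.Lib.MPf11a48.K3.OddM

variable {E : Type} [AddCommGroup E] [Module ℚ E]

namespace UniM

/-- number of subsets of `{0, …, n - 1}` with `k` elements and given sum -/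
noncomputable def dN (b : ℕ → E) (n k : ℕ) (μ : E) : ℕ :=
  Nat.card {S : Finset ℕ // S ⊆ range n ∧ S.card = k ∧ ∑ i ∈ S, b i = μ}

section Count

variable {b : ℕ → E} {n k : ℕ} {μ : E}

instance finN : Finite {S : Finset ℕ // S ⊆ range n ∧ S.card = k ∧ ∑ i ∈ S, b i = μ} :=
  Set.Finite.to_subtype (((range n).powerset.finite_toSet).subset
    (fun S (hS : S ⊆ range n ∧ S.card = k ∧ ∑ i ∈ S, b i = μ) =>
      Finset.mem_coe.2 (Finset.mem_powerset.2 hS.1)))

theorem dN_ne : dN b n k μ ≠ 0 ↔ ∃ S : Finset ℕ, S ⊆ range n ∧ S.card = k ∧ ∑ i ∈ S, b i = μ := by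
  rw [dN, Nat.card_ne_zero]
  constructor
  · rintro ⟨⟨S, hS⟩, _⟩
    exact ⟨S, hS⟩
  · rintro ⟨S, hS⟩
    exact ⟨⟨S, hS⟩, inferInstance⟩

theorem dN_two {S₁ S₂ : Finset ℕ} (h : S₁ ≠ S₂)
    (h₁ : S₁ ⊆ range n ∧ S₁.card = k ∧ ∑ i ∈ S₁, b i = μ)
    (h₂ : S₂ ⊆ range n ∧ S₂.card = k ∧ ∑ i ∈ S₂, b i = μ) : 2 ≤ dN b n k μ := by
  have : Nontrivial {S : Finset ℕ // S ⊆ range n ∧ S.card = k ∧ ∑ i ∈ S, b i = μ} :=
    ⟨⟨S₁, h₁⟩, ⟨S₂, h₂⟩, fun h' => h (congrArg Subtype.val h')⟩
  exact Finite.one_lt_card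

theorem dN_le_one (h : ∀ S₁ S₂ : Finset ℕ, (S₁ ⊆ range n ∧ S₁.card = k ∧ ∑ i ∈ S₁, b i = μ) →
    (S₂ ⊆ range n ∧ S₂.card = k ∧ ∑ i ∈ S₂, b i = μ) → S₁ = S₂) : dN b n k μ ≤ 1 := by
  rw [dN, Finite.card_le_one_iff_subsingleton]
  exact ⟨fun T₁ T₂ => Subtype.ext (h _ _ T₁.2 T₂.2)⟩

end Count

/-- highest weights -/
def om (b : ℕ → E) (k : ℕ) : E := ∑ i ∈ range k, b i

/-- differences of consecutive weights -/
def al (b : ℕ → E) (k : ℕ) : E := b k - b (k + 1)

/-- the cone of the differences -/
def NN (b : ℕ → E) (n : ℕ) : AddSubmonoid E :=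
  AddSubmonoid.closure {v | ∃ k, k + 1 < n ∧ v = al b k}

section Cone

variable {b : ℕ → E} {n : ℕ}

theorem om_succ (k : ℕ) : om b (k + 1) = om b k + b k := Finset.sum_range_succ _ _

theorem al_mem {k : ℕ} (h : k + 1 < n) : al b k ∈ NN b n := AddSubmonoid.subset_closure ⟨k, h, rfl⟩

theorem sub_mem {i j : ℕ} (hij : i ≤ j) (hj : j < n) : b i - b j ∈ NN b n := by
  induction j, hij using Nat.le_induction with
  | base => rw [sub_self]; exact zero_mem _
  | succ j hij ih =>
    have h1 := ih (by omega)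
    have h2 := al_mem (b := b) hj
    have e : b i - b (j + 1) = (b i - b j) + al b j := by rw [al]; abel
    rw [e]
    exact add_mem h1 h2

theorem cone1 : ∀ (k : ℕ) (S : Finset ℕ), S ⊆ range n → S.card = k → om b k - ∑ i ∈ S, b i ∈ NN b n
  | 0, S, _, hc => by
    rw [Finset.card_eq_zero] at hc
    subst hc
    simp [om]
  | k + 1, S, hS, hc => by
    have hne : S.Nonempty := Finset.card_pos.1 (by omega)
    set m := S.max' hne with hm
    have hmS : m ∈ S := S.max'_mem hne
    have hsub : S ⊆ range (m + 1) := fun i hi =>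
      Finset.mem_range.2 (Nat.lt_succ_of_le (S.le_max' i hi))
    have hkm : k ≤ m := by
      have := Finset.card_le_card hsub
      rw [hc, Finset.card_range] at this
      omega
    have h1 := cone1 k (S.erase m) ((Finset.erase_subset _ _).trans hS)
      (by rw [Finset.card_erase_of_mem hmS, hc]; rfl)
    have h2 := sub_mem (b := b) hkm (Finset.mem_range.1 (hS hmS))
    have e : om b (k + 1) - ∑ i ∈ S, b i = (om b k - ∑ i ∈ S.erase m, b i) + (b k - b m) := by
      rw [om_succ, ← Finset.sum_erase_add S b hmS]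
      abel
    rw [e]
    exact add_mem h1 h2

/-- the decomposition used below -/
theorem cone_aux {k : ℕ} {S : Finset ℕ} (hS : S ⊆ range n) (hc : S.card = k + 1)
    (hne : S ≠ range (k + 1)) : ∃ m ∈ S, k + 1 ≤ m ∧ m < n ∧ (S.erase m).card = k ∧
      om b (k + 1) - ∑ i ∈ S, b i = (om b k - ∑ i ∈ S.erase m, b i) + (al b k + (b (k + 1) - b m)) := by
  have hne' : S.Nonempty := Finset.card_pos.1 (by omega)
  set m := S.max' hne' with hm
  have hmS : m ∈ S := S.max'_mem hne'
  have hsub : S ⊆ range (m + 1) := fun i hi =>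
    Finset.mem_range.2 (Nat.lt_succ_of_le (S.le_max' i hi))
  have hkm : k ≤ m := by
    have := Finset.card_le_card hsub
    rw [hc, Finset.card_range] at this
    omega
  have hkm' : k + 1 ≤ m := by
    rcases Nat.lt_or_ge k m with h | h
    · exact h
    · exfalso
      have hk : m = k := le_antisymm h hkm
      apply hne
      rw [hk] at hsub
      exact Finset.eq_of_subset_of_card_le hsub (by rw [hc, Finset.card_range])
  refine ⟨m, hmS, hkm', Finset.mem_range.1 (hS hmS), ?_, ?_⟩
  · rw [Finset.card_erase_of_mem hmS, hc]; rfl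
  · rw [om_succ, ← Finset.sum_erase_add S b hmS, al]
    abel

theorem cone2 {k : ℕ} {S : Finset ℕ} (hS : S ⊆ range n) (hc : S.card = k + 1)
    (hne : S ≠ range (k + 1)) : ∃ v ∈ NN b n, om b (k + 1) = ∑ i ∈ S, b i + al b k + v := by
  obtain ⟨m, hmS, hkm, hmn, hc', e⟩ := cone_aux (b := b) hS hc hne
  refine ⟨(om b k - ∑ i ∈ S.erase m, b i) + (b (k + 1) - b m),
    add_mem (cone1 k _ ((Finset.erase_subset _ _).trans hS) hc') (sub_mem hkm hmn), ?_⟩
  rw [sub_eq_iff_eq_add] at e
  rw [e]
  abel

theorem sum_second {k : ℕ} (hk : k + 1 < n) :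
    (insert (k + 1) (range k) ⊆ range n ∧ (insert (k + 1) (range k)).card = k + 1 ∧
      ∑ i ∈ insert (k + 1) (range k), b i = om b (k + 1) - al b k) := by
  have hni : k + 1 ∉ range k := by simp
  refine ⟨?_, ?_, ?_⟩
  · intro i hi
    rw [Finset.mem_insert, Finset.mem_range] at hi
    rw [Finset.mem_range]
    omega
  · rw [Finset.card_insert_of_notMem hni, Finset.card_range]
  · rw [Finset.sum_insert hni, om_succ, al, om]
    abel

theorem second_ne (k : ℕ) : insert (k + 1) (range k) ≠ range (k + 1) := by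
  intro h
  have : k + 1 ∈ range (k + 1) := by rw [← h]; exact Finset.mem_insert_self _ _
  simp at this

end Cone

/-! ### root data -/

/-- indecomposable positive roots -/
def Ind (D : RDat E) (x : E →ₗ[ℚ] ℚ) (δ : E) : Prop :=
  δ ∈ D.R ∧ 0 < x δ ∧ ∀ β ∈ D.R, ∀ γ ∈ D.R, 0 < x β → 0 < x γ → δ ≠ β + γ

section Roots

variable {D : RDat E} (hD : D.Ok) {x : E →ₗ[ℚ] ℚ}

include hD

/-- differences of roots -/
theorem diff {α β : E} (hα : α ∈ D.R) (hβ : β ∈ D.R) (hn : ∀ t : ℚ, β ≠ t • α)
    (h : 0 < D.pr α β) : β - α ∈ D.R ∧ α - β ∈ D.R := by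
  obtain ⟨p, q, hp, hq, hpq⟩ := root_pair hD hα hβ hn
  have hp0 : 0 < p := by
    rw [hp] at h
    exact_mod_cast h
  rcases hpq with h1 | h1 | h1
  · omega
  · have h3 : p = 1 ∨ q = 1 := by
      by_contra hcon
      rw [not_or] at hcon
      have h4 : 2 ≤ p := by omega
      have h5 : 2 ≤ q := by omega
      nlinarith
    have key : β - α ∈ D.R := by
      rcases h3 with h3 | h3
      · have := hD.refl α hα β hβ
        rw [hp, h3] at this
        simpa using this
      · have := hD.refl β hβ α hα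
        rw [hq, h3] at this
        have h4 := root_neg hD this
        simpa using h4
    refine ⟨key, ?_⟩
    have := root_neg hD key
    rwa [neg_sub] at this
  · omega

theorem pos_np {α β : E} (hα : α ∈ D.R) (hβ : β ∈ D.R) (h0 : 0 < x α) (h1 : 0 < x β)
    (hne : β ≠ α) : ∀ t : ℚ, β ≠ t • α := by
  intro t ht
  have h2 : t • α ∈ D.R := ht ▸ hβ
  rcases hD.red α hα t h2 with h3 | h3
  · rw [h3, one_smul] at ht
    exact hne ht
  · rw [h3, neg_smul, one_smul] at ht
    rw [ht, map_neg] at h1
    linarith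

theorem ind_pr (hx : Reg D x) {α β : E} (hα : Ind D x α) (hβ : Ind D x β) (hne : α ≠ β) :
    D.pr α β ≤ 0 := by
  by_contra h
  rw [not_le] at h
  obtain ⟨h1, h2⟩ := diff hD hα.1 hβ.1 (pos_np hD hα.1 hβ.1 hα.2.1 hβ.2.1 hne.symm) h
  rcases lt_or_gt_of_ne (hx _ h1) with h3 | h3
  · refine hα.2.2 β hβ.1 (α - β) h2 hβ.2.1 ?_ (by abel)
    rw [← neg_sub, map_neg]
    linarith
  · exact hβ.2.2 α hα.1 (β - α) h1 hα.2.1 h3 (by abel)

/-- the monoid generated by the positive roots -/
def PP (D : RDat E) (x : E →ₗ[ℚ] ℚ) : AddSubmonoid E :=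
  AddSubmonoid.closure {α | α ∈ D.R ∧ 0 < x α}

theorem pp_pos {v : E} (hv : v ∈ PP D x) : v = 0 ∨ 0 < x v := by
  induction hv using AddSubmonoid.closure_induction with
  | mem v hv => exact Or.inr hv.2
  | zero => exact Or.inl rfl
  | add u v _ _ hu hv =>
    rcases hu with hu | hu
    · rw [hu, zero_add]
      exact hv
    · right
      rw [map_add]
      rcases hv with hv | hv
      · rw [hv, map_zero, add_zero]
        exact hu
      · linarith

theorem pp_split {δ v : E} (hv : v ∈ PP D x) (h : 0 < D.pr δ v) :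
    ∃ β ∈ D.R, 0 < x β ∧ 0 < D.pr δ β ∧ ∃ v' ∈ PP D x, v = β + v' := by
  induction hv using AddSubmonoid.closure_induction with
  | mem v hv => exact ⟨v, hv.1, hv.2, h, 0, zero_mem _, (add_zero v).symm⟩
  | zero => rw [map_zero] at h; exact absurd h (lt_irrefl _)
  | add u v hu' hv' hu hv =>
    rw [map_add] at h
    by_cases h1 : 0 < D.pr δ u
    · obtain ⟨β, hβ, hb, hp, w, hw, e⟩ := hu h1
      exact ⟨β, hβ, hb, hp, w + v, add_mem hw hv', by rw [e, add_assoc]⟩
    · have h2 : 0 < D.pr δ v := by linarith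
      obtain ⟨β, hβ, hb, hp, w, hw, e⟩ := hv h2
      exact ⟨β, hβ, hb, hp, u + w, add_mem hu' hw, by rw [e]; abel⟩

theorem ind_aux {δ β v : E} (hδ : Ind D x δ) (hβ : β ∈ D.R) (hb : 0 < x β) (hv : 0 < x v)
    (e : δ = β + v) (hp : 0 < D.pr δ β) : False := by
  have hne : β ≠ δ := by
    rintro rfl
    have : v = 0 := by
      have := congrArg (fun z => z - β) e
      simpa using this.symm
    rw [this, map_zero] at hv
    exact lt_irrefl _ hv
  obtain ⟨h1, h2⟩ := diff hD hδ.1 hβ (pos_np hD hδ.1 hβ hδ.2.1 hb hne) hp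
  refine hδ.2.2 β hβ (δ - β) h2 hb ?_ (by abel)
  have : δ - β = v := by rw [e]; abel
  rw [this]
  exact hv

/-- an indecomposable root is not the sum of two or more positive roots -/
theorem ind_dec {δ β v : E} (hδ : Ind D x δ) (hβ : β ∈ D.R) (hb : 0 < x β) (hv : v ∈ PP D x)
    (e : δ = β + v) : v = 0 := by
  rcases pp_pos hD hv with h0 | h0
  · exact h0
  exfalso
  have h1 : D.pr δ β + D.pr δ v = 2 := by
    rw [← map_add, ← e]
    exact hD.two δ hδ.1
  by_cases h2 : 0 < D.pr δ β
  · exact ind_aux hD hδ hβ hb h0 e h2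
  · have h3 : 0 < D.pr δ v := by linarith
    obtain ⟨γ, hγ, hg, hp, w, hw, e'⟩ := pp_split hD hv h3
    refine ind_aux hD hδ hγ hg (v := w + β) ?_ (by rw [e, e']; abel) hp
    rw [map_add]
    rcases pp_pos hD hw with h | h
    · rw [h, map_zero]; linarith
    · linarith

/-- going up -/
theorem wt_up {d : E → ℕ} (hW : Wt D d) {μ α : E} (hα : α ∈ D.R) (h : D.pr α μ < 0)
    (hd : d μ ≠ 0) : d (μ + α) ≠ 0 := by
  have h1 := hW.refl μ α hα
  have h2 := hW.str (μ - D.pr α μ • α) α hα (by
    rw [map_sub, map_smul, hD.two α hα, smul_eq_mul]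
    linarith)
  have h3 := hW.refl (μ + α) α hα
  have e : μ + α - D.pr α (μ + α) • α = μ - D.pr α μ • α - α := by
    rw [map_add, hD.two α hα, add_smul, two_smul]
    abel
  rw [e] at h3
  omega

theorem wt_down {d : E → ℕ} (hW : Wt D d) {μ α : E} (hα : α ∈ D.R) (h : 0 < D.pr α μ)
    (hd : d μ ≠ 0) : d (μ - α) ≠ 0 := by
  have h2 := hW.str μ α hα h
  omega

theorem pr_le_of {α β : E} (hα : α ∈ D.R) (hβ : β ∈ D.R) (h : D.pr β α ≤ 0) : D.pr α β ≤ 0 := by
  by_contra h1
  rw [not_le] at h1
  have h2 := hD.nonneg α hα β hβ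
  have h3 : D.pr β α = 0 := by
    by_contra h4
    have : D.pr β α < 0 := lt_of_le_of_ne h h4
    nlinarith
  have h4 := hD.zero β hβ α hα h3
  linarith

end Roots

/-! ### the main argument, for a fixed order -/

section Main

variable {D : RDat E} (hD : D.Ok) {x : E →ₗ[ℚ] ℚ} (hx : Reg D x) {n : ℕ} {b : ℕ → E}
  (hs : ∀ k, k + 1 < n → 0 ≤ x (al b k))
  (hI : ∀ k, k + 1 < n → IWt D (dN b n (k + 1)))

include hs in
theorem nn_nonneg {v : E} (hv : v ∈ NN b n) : 0 ≤ x v := by
  induction hv using AddSubmonoid.closure_induction with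
  | mem v hv =>
    obtain ⟨k, hk, rfl⟩ := hv
    exact hs k hk
  | zero => rw [map_zero]
  | add u v _ _ hu hv =>
    rw [map_add]
    exact add_nonneg hu hv

include hs in
theorem top_om {k : ℕ} (hk : k + 1 < n) : IsTop D (dN b n (k + 1)) x (om b (k + 1)) := by
  refine ⟨dN_ne.2 ⟨range (k + 1), Finset.range_subset_range.2 (by omega), Finset.card_range _, rfl⟩, ?_⟩
  intro α _ hα'
  by_contra hne
  obtain ⟨S, hS, hc, e⟩ := dN_ne.1 hne
  have h1 := nn_nonneg hs (cone1 (k + 1) S hS hc)
  rw [e, map_sub, map_add] at h1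
  linarith

include hx hs hI in
theorem al_pos {k : ℕ} (hk : k + 1 < n) : 0 < x (al b k) := by
  obtain ⟨h1, h2⟩ := (hI k hk).top x hx _ (top_om (D := D) hs hk)
  obtain ⟨h3, h4, h5⟩ := sum_second (b := b) hk
  have h6 : dN b n (k + 1) (om b (k + 1) - al b k) ≠ 0 := dN_ne.2 ⟨_, h3, h4, h5⟩
  by_cases h7 : om b (k + 1) - al b k = om b (k + 1)
  · exfalso
    have h8 : 2 ≤ dN b n (k + 1) (om b (k + 1)) := by
      refine dN_two (second_ne k) ⟨h3, h4, h5.trans h7⟩
        ⟨Finset.range_subset_range.2 (by omega), Finset.card_range _, rfl⟩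
    omega
  · have h8 := h2 _ h6 h7
    rw [map_sub] at h8
    linarith

end Main

section Strict

variable {D : RDat E} (hD : D.Ok) {x : E →ₗ[ℚ] ℚ} (hx : Reg D x) {n : ℕ} {b : ℕ → E}
  (hp : ∀ k, k + 1 < n → 0 < x (al b k))
  (hI : ∀ k, k + 1 < n → IWt D (dN b n (k + 1)))

include hp

theorem nn_pos {v : E} (hv : v ∈ NN b n) : v = 0 ∨ 0 < x v := by
  induction hv using AddSubmonoid.closure_induction with
  | mem v hv =>
    obtain ⟨k, hk, rfl⟩ := hv
    exact Or.inr (hp k hk)
  | zero => exact Or.inl rfl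
  | add u v _ _ hu hv =>
    rcases hu with hu | hu
    · rw [hu, zero_add]
      exact hv
    · right
      rw [map_add]
      rcases hv with hv | hv
      · rw [hv, map_zero, add_zero]
        exact hu
      · linarith

theorem nn_nonneg' {v : E} (hv : v ∈ NN b n) : 0 ≤ x v := by
  rcases nn_pos hp hv with h | h
  · rw [h, map_zero]
  · exact h.le

/-- the second weight has multiplicity one -/
theorem second_le {k : ℕ} : dN b n (k + 1) (om b (k + 1) - al b k) ≤ 1 := by
  have key : ∀ S : Finset ℕ, (S ⊆ range n ∧ S.card = k + 1 ∧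
      ∑ i ∈ S, b i = om b (k + 1) - al b k) → k + 1 < n → S = insert (k + 1) (range k) := by
    rintro S ⟨hS, hc, e⟩ hk
    have hne : S ≠ range (k + 1) := by
      rintro rfl
      have h1 : al b k = 0 := by
        have : om b (k + 1) = om b (k + 1) - al b k := e
        exact sub_eq_self.1 this.symm
      have := hp k hk
      rw [h1, map_zero] at this
      exact lt_irrefl _ this
    obtain ⟨m, hmS, hkm, hmn, hc', e'⟩ := cone_aux (b := b) hS hc hne
    have hv1 := cone1 (b := b) k _ ((Finset.erase_subset m S).trans hS) hc'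
    have hv2 := sub_mem (b := b) hkm hmn
    have h0 : (om b k - ∑ i ∈ S.erase m, b i) + (b (k + 1) - b m) = 0 := by
      rw [e] at e'
      have h1 : al b k = (om b k - ∑ i ∈ S.erase m, b i) + (al b k + (b (k + 1) - b m)) := by
        rw [← e']; abel
      have h2 := sub_eq_zero.2 h1.symm
      rw [← h2]
      abel
    have h1 : x (om b k - ∑ i ∈ S.erase m, b i) = 0 ∧ x (b (k + 1) - b m) = 0 := by
      have h2 := congrArg x h0
      rw [map_add, map_zero] at h2
      have h3 := nn_nonneg' hp hv1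
      have h4 := nn_nonneg' hp hv2
      constructor <;> linarith
    have hm : m = k + 1 := by
      by_contra hm
      have h2 := sub_mem (b := b) (show k + 2 ≤ m by omega) hmn
      have h3 := nn_nonneg' hp h2
      have h4 := hp (k + 1) (by omega)
      have h5 : b (k + 1) - b m = al b (k + 1) + (b (k + 2) - b m) := by rw [al]; abel
      have h6 := h1.2
      rw [h5, map_add] at h6
      linarith
    subst hm
    have hS' : S.erase (k + 1) = range k := by
      rcases Nat.eq_zero_or_pos k with h | h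
      · subst h
        rw [Finset.card_eq_zero] at hc'
        rw [hc']
        rfl
      · obtain ⟨k', rfl⟩ : ∃ k', k = k' + 1 := ⟨k - 1, by omega⟩
        by_contra hne'
        obtain ⟨v, hv, ev⟩ := cone2 (b := b) ((Finset.erase_subset _ S).trans hS) hc' hne'
        have h2 := h1.1
        rw [ev] at h2
        have h3 := nn_nonneg' hp hv
        have h4 := hp k' (by omega)
        have h5 : (∑ i ∈ S.erase (k' + 1 + 1), b i + al b k' + v) - ∑ i ∈ S.erase (k' + 1 + 1), b i =
          al b k' + v := by abel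
        rw [h5, map_add] at h2
        linarith
    rw [← hS', Finset.insert_erase hmS]
  refine dN_le_one fun S₁ S₂ h₁ h₂ => ?_
  by_cases hk : k + 1 < n
  · rw [key S₁ h₁ hk, key S₂ h₂ hk]
  · have : ∀ S : Finset ℕ, S ⊆ range n → S.card = k + 1 → S = range n := fun S hS hc =>
      Finset.eq_of_subset_of_card_le hS (by rw [Finset.card_range]; omega)
    rw [this S₁ h₁.1 h₁.2.1, this S₂ h₂.1 h₂.2.1]

include hx hI

/-- the differences are roots -/
theorem al_root {k : ℕ} (hk : k + 1 < n) : al b k ∈ D.R := by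
  obtain ⟨h3, h4, h5⟩ := sum_second (b := b) hk
  have h6 : dN b n (k + 1) (om b (k + 1) - al b k) ≠ 0 := dN_ne.2 ⟨_, h3, h4, h5⟩
  have h7 : ¬IsTop D (dN b n (k + 1)) x (om b (k + 1) - al b k) := by
    intro h
    obtain ⟨_, h2⟩ := (hI k hk).top x hx _ h
    have h8 := h2 (om b (k + 1)) (dN_ne.2 ⟨range (k + 1), Finset.range_subset_range.2 (by omega),
      Finset.card_range _, rfl⟩) (by
      intro h9
      have h10 := hp k hk
      rw [sub_eq_self.1 h9.symm, map_zero] at h10
      exact lt_irrefl _ h10)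
    rw [map_sub] at h8
    have := hp k hk
    linarith
  have h8 : ∃ δ ∈ D.R, 0 < x δ ∧ dN b n (k + 1) (om b (k + 1) - al b k + δ) ≠ 0 := by
    by_contra hcon
    push Not at hcon
    exact h7 ⟨h6, fun α hα hα' => hcon α hα hα'⟩
  obtain ⟨δ, hδ, hδ', h9⟩ := h8
  obtain ⟨S, hS, hc, e⟩ := dN_ne.1 h9
  by_cases hne : S = range (k + 1)
  · rw [hne] at e
    have h10 : δ = al b k := by
      have h11 : om b (k + 1) = om b (k + 1) - al b k + δ := e
      have h12 : δ - al b k = 0 := by
        have := sub_eq_zero.2 h11.symm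
        rw [← this]; abel
      exact sub_eq_zero.1 h12
    rw [← h10]
    exact hδ
  · exfalso
    obtain ⟨v, hv, ev⟩ := cone2 (b := b) hS hc hne
    rw [e] at ev
    have h10 : δ + v = 0 := by
      have := sub_eq_zero.2 ev.symm
      rw [← this]; abel
    have h11 := congrArg x h10
    rw [map_add, map_zero] at h11
    have := nn_nonneg' hp hv
    linarith

end Strict

section Labels

variable {D : RDat E} (hD : D.Ok) {x : E →ₗ[ℚ] ℚ} (hx : Reg D x) {n : ℕ} {b : ℕ → E}
  (hp : ∀ k, k + 1 < n → 0 < x (al b k))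
  (hI : ∀ k, k + 1 < n → IWt D (dN b n (k + 1)))

include hp in
theorem x_lt {i j : ℕ} (hij : i < j) (hj : j < n) : x (b j) < x (b i) := by
  have h1 := nn_pos hp (sub_mem (b := b) (show i ≤ j by omega) hj)
  rcases h1 with h1 | h1
  · exfalso
    have h2 := nn_nonneg' hp (sub_mem (b := b) (show i + 1 ≤ j by omega) hj)
    have h3 := hp i (by omega)
    have h4 : b i - b j = al b i + (b (i + 1) - b j) := by rw [al]; abel
    rw [h4] at h1
    have h5 := congrArg x h1
    rw [map_add, map_zero] at h5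
    linarith
  · rw [map_sub] at h1
    linarith

include hp in
theorem x_le {i j : ℕ} (hij : i ≤ j) (hj : j < n) : x (b j) ≤ x (b i) := by
  rcases Nat.eq_or_lt_of_le hij with h | h
  · rw [h]
  · exact (x_lt hp h hj).le

theorem dN_one_ne {μ : E} : dN b n 1 μ ≠ 0 ↔ ∃ i < n, b i = μ := by
  rw [dN_ne]
  constructor
  · rintro ⟨S, hS, hc, e⟩
    obtain ⟨i, rfl⟩ := Finset.card_eq_one.1 hc
    rw [Finset.sum_singleton] at e
    exact ⟨i, Finset.mem_range.1 (hS (Finset.mem_singleton_self i)), e⟩
  · rintro ⟨i, hi, e⟩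
    refine ⟨{i}, ?_, Finset.card_singleton i, ?_⟩
    · rw [Finset.singleton_subset_iff]
      exact Finset.mem_range.2 hi
    · rw [Finset.sum_singleton]
      exact e

include hp in
/-- no weight lies strictly between two consecutive weights -/
theorem gap {k : ℕ} (hk : k + 1 < n) {μ : E} (h1 : x (b (k + 1)) < x μ) (h2 : x μ < x (b k)) :
    dN b n 1 μ = 0 := by
  by_contra h
  obtain ⟨i, hi, rfl⟩ := dN_one_ne.1 h
  rcases Nat.lt_or_ge k i with h3 | h3
  · have := x_le hp (show k + 1 ≤ i by omega) hi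
    linarith
  · have := x_le hp h3 (by omega)
    linarith

include hD hx hp hI

/-- the labels are indecomposable -/
theorem al_ind {k : ℕ} (hk : k + 1 < n) : Ind D x (al b k) := by
  have hr := al_root hx hp hI hk
  refine ⟨hr, hp k hk, ?_⟩
  have hI1 : Wt D (dN b n 1) := (hI 0 (by omega)).toWt
  have hxk : x (al b k) = x (b k) - x (b (k + 1)) := by rw [al, map_sub]
  have key : ∀ β ∈ D.R, 0 < x β → x β < x (al b k) → D.pr (al b k) β ≤ 0 := by
    intro β hβ h1 h2
    refine pr_le_of hD hr hβ ?_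
    have h3 : D.pr β (b k) ≤ 0 := by
      by_contra h
      rw [not_le] at h
      refine wt_down hD hI1 hβ h (dN_one_ne.2 ⟨k, by omega, rfl⟩) (gap hp hk ?_ ?_)
      · rw [map_sub]; linarith
      · rw [map_sub]; linarith
    have h4 : 0 ≤ D.pr β (b (k + 1)) := by
      by_contra h
      rw [not_le] at h
      refine wt_up hD hI1 hβ h (dN_one_ne.2 ⟨k + 1, hk, rfl⟩) (gap hp hk ?_ ?_)
      · rw [map_add]; linarith
      · rw [map_add]; linarith
    rw [al, map_sub]
    linarith
  intro β hβ γ hγ h1 h2 e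
  have hxe : x (al b k) = x β + x γ := by rw [e, map_add]
  have h3 := key β hβ h1 (by linarith)
  have h4 := key γ hγ h2 (by linarith)
  have h5 := hD.two _ hr
  have h6 : D.pr (al b k) (al b k) = D.pr (al b k) β + D.pr (al b k) γ := by
    nth_rewrite 2 [e]
    rw [map_add]
  linarith

theorem nn_pp {v : E} (hv : v ∈ NN b n) : v ∈ PP D x := by
  induction hv using AddSubmonoid.closure_induction with
  | mem v hv =>
    obtain ⟨k, hk, rfl⟩ := hv
    exact AddSubmonoid.subset_closure ⟨al_root hx hp hI hk, hp k hk⟩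
  | zero => exact zero_mem _
  | add u v _ _ hu hv => exact add_mem hu hv

/-- pairing of a label with a highest weight: distinct labels -/
theorem pr_om_ne {k l : ℕ} (hk : k + 1 < n) (hl : l + 1 < n) (hne : al b l ≠ al b k) :
    D.pr (al b l) (om b (k + 1)) = 0 := by
  have hil := al_ind hD hx hp hI hl
  have hd : dN b n (k + 1) (om b (k + 1)) ≠ 0 := (top_om (D := D) (fun k hk => (hp k hk).le) hk).1
  refine (hI k hk).a3 _ hd _ hil.1 ((top_om (D := D) (fun k hk => (hp k hk).le) hk).2 _ hil.1 hil.2.1) ?_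
  by_contra h
  obtain ⟨S, hS, hc, e⟩ := dN_ne.1 h
  by_cases hr : S = range (k + 1)
  · rw [hr] at e
    have h1 : om b (k + 1) = om b (k + 1) - al b l := e
    have h2 := hil.2.1
    rw [sub_eq_self.1 h1.symm, map_zero] at h2
    exact lt_irrefl _ h2
  · obtain ⟨v, hv, ev⟩ := cone2 (b := b) hS hc hr
    rw [e] at ev
    have h1 : al b l = al b k + v := by
      have := sub_eq_zero.2 ev.symm
      have h2 : al b k + v - al b l = 0 := by rw [← this]; abel
      exact (sub_eq_zero.1 h2).symm
    have h2 := ind_dec hD hil (al_root hx hp hI hk) (hp k hk) (nn_pp hD hx hp hI hv) h1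
    rw [h2, add_zero] at h1
    exact hne h1

/-- pairing of a label with a highest weight: same label -/
theorem pr_om_pos {k l : ℕ} (hk : k + 1 < n) (_hl : l + 1 < n) (he : al b l = al b k) :
    0 < D.pr (al b l) (om b (k + 1)) := by
  rw [he]
  have hr := al_root hx hp hI hk
  by_contra h
  rw [not_lt] at h
  obtain ⟨h3, h4, h5⟩ := sum_second (b := b) hk
  have h6 : dN b n (k + 1) (om b (k + 1) - al b k) ≠ 0 := dN_ne.2 ⟨_, h3, h4, h5⟩
  have h7 := (hI k hk).refl (om b (k + 1) - al b k) _ hr
  rw [← h7] at h6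
  obtain ⟨S, hS, hc, e⟩ := dN_ne.1 h6
  have h8 := nn_nonneg' hp (cone1 (b := b) (k + 1) S hS hc)
  rw [e, map_sub, map_sub, map_sub, map_smul, map_sub, hD.two _ hr, smul_eq_mul] at h8
  have h9 := hp k hk
  nlinarith

/-- two steps apart, labels are different -/
theorem two_apart {p : ℕ} (hp2 : p + 3 < n) : al b p ≠ al b (p + 2) := by
  intro he
  have hk : p + 1 + 1 < n := by omega
  have hil := al_ind hD hx hp hI (show p + 1 < n by omega)
  have hr1 := al_root hx hp hI hk
  have hp1 := hp (p + 1) hk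
  set ν := om b (p + 1 + 1) - al b (p + 1) - al b p with hν
  -- multiplicity at least two
  have h2 : 2 ≤ dN b n (p + 1 + 1) ν := by
    have hn1 : p + 3 ∉ range (p + 1) := by simp
    have hn2 : p + 1 ∉ range p := by simp
    have hn3 : p + 2 ∉ insert (p + 1) (range p) := by simp
    refine dN_two (S₁ := insert (p + 3) (range (p + 1)))
      (S₂ := insert (p + 2) (insert (p + 1) (range p))) ?_ ⟨?_, ?_, ?_⟩ ⟨?_, ?_, ?_⟩
    · intro h
      have : p + 3 ∈ insert (p + 2) (insert (p + 1) (range p)) := by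
        rw [← h]; exact Finset.mem_insert_self _ _
      simp at this
    · intro i hi
      rw [Finset.mem_insert, Finset.mem_range] at hi
      rw [Finset.mem_range]
      omega
    · rw [Finset.card_insert_of_notMem hn1, Finset.card_range]
    · rw [Finset.sum_insert hn1]
      have h1 : ∑ i ∈ range (p + 1), b i = om b (p + 1) := rfl
      rw [h1, hν, he, om_succ (p + 1), al, al]
      abel
    · intro i hi
      rw [Finset.mem_insert, Finset.mem_insert, Finset.mem_range] at hi
      rw [Finset.mem_range]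
      omega
    · rw [Finset.card_insert_of_notMem hn3, Finset.card_insert_of_notMem hn2, Finset.card_range]
    · rw [Finset.sum_insert hn3, Finset.sum_insert hn2]
      have h1 : ∑ i ∈ range p, b i = om b p := rfl
      rw [h1, hν, om_succ (p + 1), om_succ p, al, al]
      abel
  have h3 : dN b n (p + 1 + 1) ν ≤ dN b n (p + 1 + 1) (ν + al b p) := by
    refine (hI (p + 1) hk).sb x hx ν ⟨om b (p + 1 + 1), (top_om (D := D)
      (fun k hk => (hp k hk).le) hk).1, ?_⟩ (al b p) hil.1 hil.2.1 ?_
    · rw [hν, map_sub, map_sub]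
      have := hil.2.1
      linarith
    · intro δ hδ hδ' hne hd
      obtain ⟨S, hS, hc, e⟩ := dN_ne.1 hd
      by_cases hr : S = range (p + 1 + 1)
      · rw [hr] at e
        have h4 : δ - al b p = al b (p + 1) := by
          have h5 : om b (p + 1 + 1) = ν + δ := e
          rw [hν] at h5
          have h6 := sub_eq_zero.2 h5
          have h7 : al b (p + 1) - (δ - al b p) = 0 := by rw [← h6]; abel
          exact (sub_eq_zero.1 h7).symm
        rw [h4]
        exact ⟨hr1, Or.inl hp1⟩
      · exfalso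
        obtain ⟨v, hv, ev⟩ := cone2 (b := b) hS hc hr
        rw [e, hν] at ev
        have h4 : al b p = δ + v := by
          have h6 := sub_eq_zero.2 ev
          have h7 : al b p - (δ + v) = 0 := by rw [← h6]; abel
          exact sub_eq_zero.1 h7
        have h5 := ind_dec hD hil hδ hδ' (nn_pp hD hx hp hI hv) h4
        rw [h5, add_zero] at h4
        exact hne h4.symm
  have h4 : ν + al b p = om b (p + 1 + 1) - al b (p + 1) := by rw [hν]; abel
  rw [h4] at h3
  have h5 := second_le (b := b) (n := n) hp (k := p + 1)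
  omega

end Labels

section Chain

variable {D : RDat E} (hD : D.Ok) {x : E →ₗ[ℚ] ℚ} (hx : Reg D x) {n : ℕ} {b : ℕ → E}
  (hp : ∀ k, k + 1 < n → 0 < x (al b k))
  (hI : ∀ k, k + 1 < n → IWt D (dN b n (k + 1))) (hn : Wt D (dN b n n))

theorem al_eq (k : ℕ) : al b k = (2 : ℚ) • om b (k + 1) - om b k - om b (k + 2) := by
  rw [om_succ (k + 1), om_succ k, al, two_smul]
  abel

include hD hn in
theorem pr_om_last {β : E} (hβ : β ∈ D.R) : D.pr β (om b n) = 0 := by
  have h1 : dN b n n (om b n) ≠ 0 := dN_ne.2 ⟨range n, subset_rfl, Finset.card_range n, rfl⟩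
  rw [← hn.refl _ β hβ] at h1
  obtain ⟨S, hS, hc, e⟩ := dN_ne.1 h1
  have h2 : S = range n := Finset.eq_of_subset_of_card_le hS (by rw [hc, Finset.card_range])
  rw [h2] at e
  have h3 : om b n = om b n - D.pr β (om b n) • β := e
  have h4 := sub_eq_self.1 h3.symm
  rcases smul_eq_zero.1 h4 with h5 | h5
  · exact h5
  · exact absurd h5 (root_ne_zero hD hβ)

theorem pr_om_zero {β : E} : D.pr β (om b 0) = 0 := by
  rw [om, Finset.range_zero, Finset.sum_empty, map_zero]

include hD hx hp hI hn

/-- the pairings of the labels with the highest weights are non-negative -/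
theorem f_nonneg {k l : ℕ} (hk : k ≤ n) (hl : l + 1 < n) : 0 ≤ D.pr (al b l) (om b k) := by
  rcases Nat.eq_zero_or_pos k with h | h
  · rw [h, pr_om_zero]
  · obtain ⟨k', rfl⟩ : ∃ k', k = k' + 1 := ⟨k - 1, by omega⟩
    rcases Nat.eq_or_lt_of_le hk with h1 | h1
    · rw [h1, pr_om_last hD hn (al_root hx hp hI hl)]
    · by_cases he : al b l = al b k'
      · exact (pr_om_pos hD hx hp hI h1 hl he).le
      · rw [pr_om_ne hD hx hp hI h1 hl he]

/-- if the pairing is positive, the labels agree -/
theorem f_pos {k l : ℕ} (hk : k ≤ n) (hl : l + 1 < n) (h : 0 < D.pr (al b l) (om b k)) :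
    ∃ k', k = k' + 1 ∧ k' + 1 < n ∧ al b l = al b k' := by
  rcases Nat.eq_zero_or_pos k with h0 | h0
  · rw [h0, pr_om_zero] at h
    exact absurd h (lt_irrefl _)
  · obtain ⟨k', rfl⟩ : ∃ k', k = k' + 1 := ⟨k - 1, by omega⟩
    rcases Nat.eq_or_lt_of_le hk with h1 | h1
    · rw [h1, pr_om_last hD hn (al_root hx hp hI hl)] at h
      exact absurd h (lt_irrefl _)
    · refine ⟨k', rfl, h1, ?_⟩
      by_contra he
      rw [pr_om_ne hD hx hp hI h1 hl he] at h
      exact lt_irrefl _ h

theorem pr_al {k l : ℕ} : D.pr (al b l) (al b k) = 2 * D.pr (al b l) (om b (k + 1)) -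
    D.pr (al b l) (om b k) - D.pr (al b l) (om b (k + 2)) := by
  nth_rewrite 2 [al_eq]
  rw [map_sub, map_sub, map_smul, smul_eq_mul]

/-- a repetition of consecutive labels spreads symmetrically -/
theorem spread {j : ℕ} (hj : j + 2 < n) (he : al b j = al b (j + 1)) :
    ∀ i, i ≤ j + 1 → j + 2 + i ≤ n →
      (∀ l, l + 1 < n → D.pr (al b l) (om b (j + 1 - i)) = D.pr (al b l) (om b (j + 2 + i))) ∧
      ∀ l, l + 1 < n → i ≤ j → j + 3 + i ≤ n →
        D.pr (al b l) (om b (j - i)) = D.pr (al b l) (om b (j + 3 + i)) := by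
  have hj1 : j + 1 < n := by omega
  -- the values at the repeated labels
  have h0 : ∀ l, l + 1 < n → D.pr (al b l) (om b (j + 1)) = D.pr (al b l) (om b (j + 2)) := by
    intro l hl
    by_cases h : al b l = al b j
    · have h1 := hD.two _ (al_root hx hp hI hl)
      have h2 : D.pr (al b l) (al b j) = 2 := by
        rw [← h]; exact h1
      have h3 : D.pr (al b l) (al b (j + 1)) = 2 := by
        rw [← he, ← h]; exact h1
      rw [pr_al hD hx hp hI hn] at h2 h3
      have h4 : D.pr (al b l) (om b j) = 0 := by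
        by_contra hne
        have h5 := lt_of_le_of_ne (f_nonneg hD hx hp hI hn (by omega) hl) (Ne.symm hne)
        obtain ⟨k', hk', hk'n, e'⟩ := f_pos hD hx hp hI hn (by omega) hl h5
        subst hk'
        exact two_apart hD hx hp hI (p := k') (by omega) (by rw [← e', h, he])
      have h5 : D.pr (al b l) (om b (j + 1 + 2)) = 0 := by
        by_contra hne
        have h6 := lt_of_le_of_ne (f_nonneg hD hx hp hI hn (by omega) hl) (Ne.symm hne)
        obtain ⟨k', hk', hk'n, e'⟩ := f_pos hD hx hp hI hn (by omega) hl h6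
        have h7 : k' = j + 2 := by omega
        subst h7
        exact two_apart hD hx hp hI (p := j) (by omega) (by rw [← e', h])
      have h6 : om b (j + 1 + 1) = om b (j + 2) := rfl
      rw [h4] at h2
      rw [h5, h6] at h3
      linarith
    · rw [pr_om_ne hD hx hp hI hj1 hl h]
      have h1 : al b l ≠ al b (j + 1) := by rw [← he]; exact h
      exact (pr_om_ne hD hx hp hI (k := j + 1) (by omega) hl h1).symm
  -- one step
  have step : ∀ u v, u + 1 < n → v + 1 < n → v + 2 ≤ n →
      (∀ l, l + 1 < n → D.pr (al b l) (om b (u + 1)) = D.pr (al b l) (om b (v + 1))) →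
      (∀ l, l + 1 < n → D.pr (al b l) (om b (u + 2)) = D.pr (al b l) (om b v)) →
      ∀ l, l + 1 < n → D.pr (al b l) (om b u) = D.pr (al b l) (om b (v + 2)) := by
    intro u v hu hv hv' h1 h2 l hl
    have h3 : al b u = al b v := by
      have h4 := pr_om_pos hD hx hp hI hu hu rfl
      rw [h1 u hu] at h4
      obtain ⟨k', hk', _, e'⟩ := f_pos hD hx hp hI hn (by omega) hu h4
      have : k' = v := by omega
      rw [← this]
      exact e'
    have h4 : D.pr (al b l) (al b u) = D.pr (al b l) (al b v) := by rw [h3]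
    rw [pr_al hD hx hp hI hn, pr_al hD hx hp hI hn, h1 l hl, h2 l hl] at h4
    linarith
  intro i
  induction i with
  | zero =>
    intro _ _
    refine ⟨fun l hl => h0 l hl, fun l hl _ h2 => ?_⟩
    exact step j (j + 1) hj1 (by omega) (by omega) h0 (fun l hl => (h0 l hl).symm) l hl
  | succ i ih =>
    intro h1 h2
    obtain ⟨ih1, ih2⟩ := ih (by omega) (by omega)
    have e1 : j + 1 - (i + 1) = j - i := by omega
    have e2 : j + 2 + (i + 1) = j + 3 + i := by omega
    have A : ∀ l, l + 1 < n →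
        D.pr (al b l) (om b (j + 1 - (i + 1))) = D.pr (al b l) (om b (j + 2 + (i + 1))) := by
      intro l hl
      rw [e1, e2]
      exact ih2 l hl (by omega) (by omega)
    refine ⟨A, fun l hl h3 h4 => ?_⟩
    have h5 := step (j - (i + 1)) (j + 2 + i) (by omega) (by omega) (by omega) ?_ ?_ l hl
    · have e3 : j + 2 + i + 2 = j + 3 + (i + 1) := by omega
      rw [e3] at h5
      exact h5
    · intro l hl
      have h6 := A l hl
      have e3 : j - (i + 1) + 1 = j + 1 - (i + 1) := by omega
      rw [e3, h6]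
      rfl
    · intro l hl
      have h6 := ih1 l hl
      have e3 : j - (i + 1) + 2 = j + 1 - i := by omega
      rw [e3, h6]

/-- if `n` is even, consecutive labels are different -/
theorem consec (hev : Even n) {j : ℕ} (hj : j + 2 < n) : al b j ≠ al b (j + 1) := by
  intro he
  obtain ⟨r, hr⟩ := hev
  rcases Nat.lt_or_ge (2 * j + 3) n with h | h
  · -- the left end is reached first
    have h1 := (spread hD hx hp hI hn hj he (j + 1) le_rfl (by omega)).1 (2 * j + 2) (by omega)
    have e1 : j + 1 - (j + 1) = 0 := by omega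
    have e2 : j + 2 + (j + 1) = 2 * j + 2 + 1 := by omega
    rw [e1, e2, pr_om_zero] at h1
    have h2 := pr_om_pos hD hx hp hI (k := 2 * j + 2) (l := 2 * j + 2) (by omega) (by omega) rfl
    rw [← h1] at h2
    exact lt_irrefl _ h2
  · have hne : n ≠ 2 * j + 3 := by omega
    have h0 : n < 2 * j + 3 := by omega
    have h1 := (spread hD hx hp hI hn hj he (n - (j + 2)) (by omega) (by omega)).1
      (2 * j + 2 - n) (by omega)
    have e1 : j + 1 - (n - (j + 2)) = (2 * j + 2 - n) + 1 := by omega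
    have e2 : j + 2 + (n - (j + 2)) = n := by omega
    rw [e1, e2, pr_om_last hD hn (al_root hx hp hI (by omega))] at h1
    have h2 := pr_om_pos hD hx hp hI (k := 2 * j + 2 - n) (l := 2 * j + 2 - n) (by omega) (by omega) rfl
    rw [h1] at h2
    exact lt_irrefl _ h2

/-- all labels are different -/
theorem distinct (hev : Even n) : ∀ m, m + 1 < n → ∀ l < m, al b l ≠ al b m := by
  intro m
  induction m using Nat.strong_induction_on with
  | _ m ih =>
    intro hm l hl he
    have h1 : l + 1 ≠ m := by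
      intro h
      subst h
      exact consec hD hx hp hI hn hev (by omega) he
    have h2 : l + 2 ≠ m := by
      intro h
      subst h
      exact two_apart hD hx hp hI (by omega) he
    obtain ⟨m', rfl⟩ : ∃ m', m = m' + 1 := ⟨m - 1, by omega⟩
    have hc : al b m' ≠ al b (m' + 1) := consec hD hx hp hI hn hev (by omega)
    have hm' : m' + 1 < n := by omega
    have h3 : D.pr (al b m') (al b (m' + 1)) < 0 := by
      rw [pr_al hD hx hp hI hn]
      have h4 := pr_om_ne hD hx hp hI (k := m' + 1) hm hm' hc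
      have h5 := pr_om_pos hD hx hp hI hm' hm' rfl
      have h6 := f_nonneg hD hx hp hI hn (k := m' + 1 + 2) (l := m') (by omega) hm'
      rw [h4]
      linarith
    rw [← he, pr_al hD hx hp hI hn] at h3
    have h4 := f_nonneg hD hx hp hI hn (k := l + 1) (l := m') (by omega) hm'
    have h5 := f_nonneg hD hx hp hI hn (k := l) (l := m') (by omega) hm'
    by_cases h6 : 0 < D.pr (al b m') (om b l)
    · obtain ⟨k', hk', _, e'⟩ := f_pos hD hx hp hI hn (by omega) hm' h6
      exact ih m' (by omega) (by omega) k' (by omega) e'.symm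
    · have h7 : 0 < D.pr (al b m') (om b (l + 2)) := by linarith
      obtain ⟨k', hk', _, e'⟩ := f_pos hD hx hp hI hn (by omega) hm' h7
      exact ih m' (by omega) (by omega) k' (by omega) e'.symm

/-- the pairings -/
theorem pr_delta (hev : Even n) {k l : ℕ} (hk : k ≤ n) (hl : l + 1 < n) :
    D.pr (al b l) (om b k) = if k = l + 1 then 1 else 0 := by
  have inj : ∀ k l, k + 1 < n → l + 1 < n → al b l = al b k → l = k := by
    intro k l hk hl he
    rcases Nat.lt_trichotomy l k with h | h | h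
    · exact absurd he (distinct hD hx hp hI hn hev k hk l h)
    · exact h
    · exact absurd he.symm (distinct hD hx hp hI hn hev l hl k h)
  have hz : ∀ k, k ≤ n → k ≠ l + 1 → D.pr (al b l) (om b k) = 0 := by
    intro k hk hne
    by_contra h
    have h1 := lt_of_le_of_ne (f_nonneg hD hx hp hI hn hk hl) (Ne.symm h)
    obtain ⟨k', hk', hk'n, e'⟩ := f_pos hD hx hp hI hn hk hl h1
    exact hne (by rw [hk', inj k' l hk'n hl e'])
  split_ifs with h
  · have h1 := hD.two _ (al_root hx hp hI hl)
    rw [pr_al hD hx hp hI hn, hz l (by omega) (by omega), hz (l + 2) (by omega) (by omega)] at h1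
    rw [h]
    linarith
  · exact hz k hk h

theorem pr_b (hev : Even n) {k l : ℕ} (hk : k < n) (hl : l + 1 < n) :
    D.pr (al b l) (b k) = (if k = l then 1 else 0) - if k = l + 1 then 1 else 0 := by
  have e : b k = om b (k + 1) - om b k := by rw [om_succ]; abel
  rw [e, map_sub, pr_delta hD hx hp hI hn hev (by omega) hl,
    pr_delta hD hx hp hI hn hev (by omega) hl]
  congr 1
  simp only [Nat.add_right_cancel_iff]

/-- all differences are roots -/
theorem sub_root (hev : Even n) {i j : ℕ} (hij : i < j) (hj : j < n) : b i - b j ∈ D.R := by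
  induction j, (show i + 1 ≤ j from hij) using Nat.le_induction with
  | base => exact al_root hx hp hI hj
  | succ j hij' ih =>
    have h1 := ih (by omega) (by omega)
    have h2 := hD.refl (al b j) (al_root hx hp hI hj) _ h1
    rw [map_sub, pr_b hD hx hp hI hn hev (by omega) hj, pr_b hD hx hp hI hn hev (by omega) hj,
      if_neg (by omega), if_neg (by omega), if_pos rfl, if_neg (by omega)] at h2
    have e : b i - b (j + 1) = b i - b j - ((0 : ℚ) - 0 - (1 - 0)) • al b j := by
      have : ((0 : ℚ) - 0 - (1 - 0)) = -1 := by norm_num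
      rw [this, neg_smul, one_smul, al]
      abel
    rw [e]
    exact h2

/-- independence -/
theorem indep (hev : Even n) {t : ℕ → ℚ} (h0 : ∑ i ∈ range n, t i = 0)
    (h1 : ∑ i ∈ range n, t i • b i = 0) : ∀ i < n, t i = 0 := by
  have hstep : ∀ l, l + 1 < n → t l = t (l + 1) := by
    intro l hl
    have h2 := congrArg (D.pr (al b l)) h1
    rw [map_sum, map_zero] at h2
    have h3 : ∑ k ∈ range n, D.pr (al b l) (t k • b k) =
        ∑ k ∈ range n, ((if k = l then t k else 0) - if k = l + 1 then t k else 0) := by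
      refine Finset.sum_congr rfl fun k hk => ?_
      rw [map_smul, pr_b hD hx hp hI hn hev (Finset.mem_range.1 hk) hl, smul_eq_mul, mul_sub]
      congr 1
      · split_ifs <;> ring
      · split_ifs <;> ring
    rw [h3, Finset.sum_sub_distrib, Finset.sum_ite_eq', Finset.sum_ite_eq',
      if_pos (Finset.mem_range.2 (by omega)), if_pos (Finset.mem_range.2 hl)] at h2
    linarith
  have hall : ∀ i < n, t i = t 0 := by
    intro i
    induction i with
    | zero => intro _; rfl
    | succ i ih =>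
      intro hi
      rw [← hstep i hi]
      exact ih (by omega)
  intro i hi
  have h2 : ∑ i ∈ range n, t i = n * t 0 := by
    rw [Finset.sum_congr rfl fun i hi => hall i (Finset.mem_range.1 hi), Finset.sum_const,
      Finset.card_range, nsmul_eq_mul]
  rw [h0] at h2
  have h3 : (n : ℚ) ≠ 0 := by
    have : 0 < n := by omega
    exact_mod_cast this.ne'
  rw [hall i hi]
  rcases mul_eq_zero.1 h2.symm with h4 | h4
  · exact absurd h4 h3
  · exact h4

end Chain

/-! ### sorting -/

section Srt

variable {n : ℕ} (a : Fin n → E) (σ : Equiv.Perm (Fin n))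

/-- the sequence of weights in the order given by `σ` -/
noncomputable def seq (i : ℕ) : E := if h : i < n then a (σ ⟨i, h⟩) else 0

theorem seq_fin (i : Fin n) : seq a σ i.1 = a (σ i) := by
  rw [seq, dif_pos i.2]

theorem sum_seq (S : Finset (Fin n)) :
    ∑ i ∈ (S.map σ.symm.toEmbedding).map Fin.valEmbedding, seq a σ i = ∑ i ∈ S, a i := by
  rw [Finset.sum_map, Finset.sum_map]
  refine Finset.sum_congr rfl fun i _ => ?_
  change seq a σ (σ.symm i).1 = a i
  rw [seq_fin, Equiv.apply_symm_apply]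

theorem dL_eq (k : ℕ) : dL a k = dN (seq a σ) n k := by
  funext μ
  rw [dL, dN]
  refine Nat.card_congr (Equiv.ofBijective (fun S => ⟨(S.1.map σ.symm.toEmbedding).map
    Fin.valEmbedding, ?_, ?_, ?_⟩) ⟨?_, ?_⟩)
  · intro i hi
    obtain ⟨j, _, rfl⟩ := Finset.mem_map.1 hi
    exact Finset.mem_range.2 j.2
  · rw [Finset.card_map, Finset.card_map]
    exact S.2.1
  · rw [sum_seq]
    exact S.2.2
  · intro S T h
    have h1 := congrArg Subtype.val h
    exact Subtype.ext (Finset.map_injective _ (Finset.map_injective _ h1))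
  · rintro ⟨T, hT, hc, e⟩
    have hT' : ∀ m ∈ T, m < n := fun m hm => Finset.mem_range.1 (hT hm)
    have e1 : (((T.attachFin hT').map σ.toEmbedding).map σ.symm.toEmbedding).map Fin.valEmbedding =
        T := by
      ext m
      simp only [Finset.mem_map, Finset.mem_attachFin, Equiv.coe_toEmbedding, Fin.valEmbedding_apply]
      constructor
      · rintro ⟨i, ⟨j, ⟨k, hk, rfl⟩, rfl⟩, rfl⟩
        rw [Equiv.symm_apply_apply]
        exact hk
      · intro hm
        exact ⟨⟨m, hT' m hm⟩, ⟨σ ⟨m, hT' m hm⟩, ⟨⟨m, hT' m hm⟩, hm, rfl⟩,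
          Equiv.symm_apply_apply _ _⟩, rfl⟩
    refine ⟨⟨(T.attachFin hT').map σ.toEmbedding, ?_, ?_⟩, Subtype.ext e1⟩
    · rw [Finset.card_map, Finset.card_attachFin, hc]
    · rw [← sum_seq a σ, e1, e]

end Srt

end UniM

open UniM in
/-- Module UNI. -/
theorem specUni (hF : SpecFun) : SpecUni := by
  intro E _ _ D hD n a hev hI hn
  obtain ⟨x, -, hx'⟩ := hF E ⊥ D.R hD.fin
  have hx : Reg D x := fun α hα => hx' α hα fun h => root_ne_zero hD hα ((Submodule.mem_bot ℚ).1 h)
  -- sort the weights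
  let σ : Equiv.Perm (Fin n) := Tuple.sort fun i => -x (a i)
  have hσ : Monotone ((fun i => -x (a i)) ∘ σ) := Tuple.monotone_sort _
  set b : ℕ → E := seq a σ with hb
  have hs : ∀ k, k + 1 < n → 0 ≤ x (al b k) := by
    intro k hk
    have h1 := hσ (show (⟨k, by omega⟩ : Fin n) ≤ ⟨k + 1, hk⟩ from Fin.mk_le_mk.2 (by omega))
    have e1 : b k = a (σ ⟨k, by omega⟩) := seq_fin a σ ⟨k, by omega⟩
    have e2 : b (k + 1) = a (σ ⟨k + 1, hk⟩) := seq_fin a σ ⟨k + 1, hk⟩
    rw [al, map_sub, e1, e2]
    simp only [Function.comp] at h1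
    linarith
  have hI' : ∀ k, k + 1 < n → IWt D (dN b n (k + 1)) := fun k hk => by
    rw [← dL_eq a σ]
    exact hI (k + 1) (by omega) hk
  have hn' : Wt D (dN b n n) := by
    rw [← dL_eq a σ]
    exact hn
  have hp : ∀ k, k + 1 < n → 0 < x (al b k) := fun k hk => al_pos hx hs hI' hk
  have e3 : ∀ i : Fin n, a i = b (σ.symm i).1 := fun i => by
    rw [hb, seq_fin, Equiv.apply_symm_apply]
  refine ⟨fun i j hij => ?_, fun t h0 h1 => ?_, σ, fun l hl k => ?_⟩
  · rw [e3 i, e3 j]
    have hne : (σ.symm i).1 ≠ (σ.symm j).1 := fun h => hij (σ.symm.injective (Fin.ext h))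
    rcases Nat.lt_or_gt_of_ne hne with h | h
    · exact sub_root hD hx hp hI' hn' hev h (σ.symm j).2
    · have := root_neg hD (sub_root hD hx hp hI' hn' hev h (σ.symm i).2)
      rwa [neg_sub] at this
  · let t' : ℕ → ℚ := fun i => if h : i < n then t (σ ⟨i, h⟩) else 0
    have ht' : ∀ i : Fin n, t' i.1 = t (σ i) := fun i => dif_pos i.2
    have h2 : ∑ i ∈ range n, t' i = 0 := by
      rw [Finset.sum_range]
      simp only [ht']
      rw [← h0]
      exact Equiv.sum_comp σ t
    have h3 : ∑ i ∈ range n, t' i • b i = 0 := by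
      rw [Finset.sum_range]
      have : ∀ i : Fin n, t' i.1 • b i.1 = (fun j => t j • a j) (σ i) := fun i => by
        rw [ht', hb, seq_fin]
      simp only [this]
      rw [← h1]
      exact Equiv.sum_comp σ fun j => t j • a j
    have h4 := indep hD hx hp hI' hn' hev h2 h3
    funext i
    have h5 := h4 (σ.symm i).1 (σ.symm i).2
    rw [ht', Equiv.apply_symm_apply] at h5
    exact h5
  · have h1 := pr_b hD hx hp hI' hn' hev (k := k.1) (l := l) k.2 hl
    have e4 : al b l = a (σ ⟨l, by omega⟩) - a (σ ⟨l + 1, hl⟩) := by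
      rw [al, hb]
      exact congrArg₂ (· - ·) (seq_fin a σ ⟨l, by omega⟩) (seq_fin a σ ⟨l + 1, hl⟩)
    rw [e4] at h1
    have e5 : b k.1 = a (σ k) := seq_fin a σ k
    rw [e5] at h1
    exact h1

end Pool.Agent.Lib.MPf11a48.UN
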