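import Pool.Agent.Lib.MP_f11a48_ag.K3.Comb

/-!
# Weights of exterior powers

If all exterior powers of `V`, of even dimension, are irreducible, then the weights of `V` are those
of the standard representation of `sl(V)`.
-/

set_option autoImplicit false

namespace Pool.Agent.Lib.MPf11a48.UN

open Finset Pool.Agent.Lib.MPf11a48.K3

variable {E : Type} [AddCommGroup E] [Module ℚ E]

/-- multiplicities of `Λ^k V`, where `V` has the weights `a_i` -/
noncomputable def dL {n : ℕ} (a : Fin n → E) (k : ℕ) (μ : E) : ℕ :=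
  Nat.card {S : Finset (Fin n) // S.card = k ∧ ∑ i ∈ S, a i = μ}

/-- UNI: if the exterior powers `Λ^k V`, `0 < k < n`, of a module with weights `a_1, …, a_n` are
irreducible, `Λ^n V` is a module, and `n` is even, then all `a_i - a_j` are roots, the `a_i` are
affinely independent, and in a suitable order the consecutive differences are simple roots with the
pairings of type `A_{n-1}`. -/
def SpecUni : Prop :=
  ∀ (E : Type) [AddCommGroup E] [Module ℚ E] (D : RDat E), D.Ok → ∀ (n : ℕ) (a : Fin n → E),
    Even n → (∀ k, 0 < k → k < n → IWt D (dL a k)) → Wt D (dL a n) →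
    (∀ i j, i ≠ j → a i - a j ∈ D.R) ∧
      (∀ t : Fin n → ℚ, ∑ i, t i = 0 → ∑ i, t i • a i = 0 → t = 0) ∧
      ∃ σ : Equiv.Perm (Fin n), ∀ (l : ℕ) (hl : l + 1 < n) (k : Fin n),
        D.pr (a (σ ⟨l, by omega⟩) - a (σ ⟨l + 1, hl⟩)) (a (σ k)) =
          (if k.1 = l then 1 else 0) - if k.1 = l + 1 then 1 else 0

end Pool.Agent.Lib.MPf11a48.UN
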